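import Pool.Agent.SCT.StmtsC
import Pool.Agent.Helper64_CUB.Red

/-!
# Row VAL of the squad SCT: the Gauss valuation and its extension to the algebraic closure
-/

set_option autoImplicit false

namespace Pool.Agent.SCT.H64

open MvPolynomial IsLocalRing

theorem val : ValStmt := by
  intro E F' _ _ V π n hπ hloc
  -- the polynomial ring over `V`, the reduction of the coefficients and its kernel
  have hψ : Function.Surjective (map π : MvPolynomial (Fin (n + 2)) V →+* _) :=
    map_surjective π hπ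
  obtain ⟨P, hP⟩ : ∃ P : Ideal (MvPolynomial (Fin (n + 2)) V),
      P = RingHom.ker (map π : MvPolynomial (Fin (n + 2)) V →+* MvPolynomial (Fin (n + 2)) F') :=
    ⟨_, rfl⟩
  have hPp : P.IsPrime := by
    rw [hP]
    exact RingHom.ker_isPrime _
  have hmemP : ∀ g : MvPolynomial (Fin (n + 2)) V, g ∈ P ↔ map π g = 0 := by
    intro g
    rw [hP, RingHom.mem_ker]
  obtain ⟨ι0, hι0⟩ : ∃ ι0 : MvPolynomial (Fin (n + 2)) V →+* Cl E n, ∀ g, ι0 g =
      algebraMap (FT E n) (Cl E n)
        (algebraMap (MvPolynomial (Fin (n + 2)) E) (FT E n) (map V.subtype g)) :=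
    ⟨((algebraMap (FT E n) (Cl E n)).comp
      (algebraMap (MvPolynomial (Fin (n + 2)) E) (FT E n))).comp (map V.subtype), fun g => rfl⟩
  have hι0i : Function.Injective ι0 := by
    intro g h hgh
    rw [hι0, hι0] at hgh
    have h1 := (algebraMap (FT E n) (Cl E n)).injective hgh
    have h2 := IsFractionRing.injective (MvPolynomial (Fin (n + 2)) E) (FT E n) h1
    exact map_injective V.subtype Subtype.val_injective h2
  have hunit : ∀ y : P.primeCompl, IsUnit (ι0 y) := by
    intro y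
    rw [isUnit_iff_ne_zero]
    intro h0
    have h1 : (y : MvPolynomial (Fin (n + 2)) V) = 0 := hι0i (h0.trans (map_zero _).symm)
    apply y.2
    rw [h1]
    exact P.zero_mem
  obtain ⟨A, _, _, _, _⟩ : ∃ (A : Type) (_ : CommRing A)
      (_ : Algebra (MvPolynomial (Fin (n + 2)) V) A) (_ : IsLocalization.AtPrime A P),
      IsLocalRing A :=
    ⟨Localization.AtPrime P, inferInstance, inferInstance, inferInstance, inferInstance⟩
  obtain ⟨φA, hφA⟩ : ∃ φA : A →+* Cl E n, ∀ g,
      φA (algebraMap (MvPolynomial (Fin (n + 2)) V) A g) = ι0 g :=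
    ⟨IsLocalization.lift (M := P.primeCompl) hunit, fun g => IsLocalization.lift_eq _ _⟩
  obtain ⟨W, hW, hlocW⟩ := IsLocalRing.exists_factor_valuationRing φA
  obtain ⟨φ, hφ⟩ : ∃ φ : A →+* W,
      φ = φA.codRestrict W.toSubring hW := ⟨_, rfl⟩
  have hφ' : ∀ a, (φ a : Cl E n) = φA a := by
    intro a
    rw [hφ]
    rfl
  have hφloc : IsLocalHom φ := by
    rw [hφ]
    exact hlocW
  obtain ⟨θ, hθ⟩ : ∃ θ : MvPolynomial (Fin (n + 2)) V →+* W, ∀ g,
      θ g = φ (algebraMap (MvPolynomial (Fin (n + 2)) V) A g) :=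
    ⟨φ.comp (algebraMap _ _), fun g => rfl⟩
  have hθc : ∀ g, (θ g : Cl E n) = ι0 g := by
    intro g
    rw [hθ, hφ', hφA]
  have hθu : ∀ g, map π g ≠ 0 → IsUnit (θ g) := by
    intro g hg
    rw [hθ]
    apply IsUnit.map
    exact (IsLocalization.AtPrime.isUnit_to_map_iff A P g).2
      (fun h => hg ((hmemP g).1 h))
  have hθn : ∀ g, map π g = 0 → ¬ IsUnit (θ g) := by
    intro g hg hu
    rw [hθ] at hu
    have h1 := hφloc.map_nonunit _ hu
    exact (IsLocalization.AtPrime.isUnit_to_map_iff A P g).1 h1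
      ((hmemP g).2 hg)
  -- the residue field
  have hker : RingHom.ker (map π : MvPolynomial (Fin (n + 2)) V →+* MvPolynomial (Fin (n + 2)) F')
      ≤ RingHom.ker ((residue W).comp θ) := by
    intro g hg
    rw [RingHom.mem_ker] at hg ⊢
    rw [RingHom.comp_apply, residue_eq_zero_iff, mem_maximalIdeal, mem_nonunits_iff]
    exact hθn g hg
  obtain ⟨μ0, hμ0⟩ : ∃ μ0 : MvPolynomial (Fin (n + 2)) F' →+* ResidueField W, ∀ g,
      μ0 (map π g) = residue W (θ g) := by
    refine ⟨RingHom.liftOfSurjective _ hψ ⟨(residue W).comp θ, hker⟩, fun g => ?_⟩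
    exact RingHom.liftOfRightInverse_comp_apply _ _ _ _ g
  have hμ0i : Function.Injective μ0 := by
    rw [injective_iff_map_eq_zero]
    intro p hp
    obtain ⟨g, rfl⟩ := hψ p
    by_contra h0
    rw [hμ0, residue_eq_zero_iff, mem_maximalIdeal, mem_nonunits_iff] at hp
    exact hp (hθu g h0)
  obtain ⟨μ, hμ⟩ : ∃ μ : FT F' n →+* ResidueField W, ∀ p,
      μ (algebraMap (MvPolynomial (Fin (n + 2)) F') (FT F' n) p) = μ0 p :=
    ⟨IsFractionRing.lift hμ0i, fun p => IsFractionRing.lift_algebraMap hμ0i p⟩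
  let _ : Algebra (FT F' n) (ResidueField W) := μ.toAlgebra
  let _ : Algebra (FT F' n) (AlgebraicClosure (ResidueField W)) :=
    ((algebraMap (ResidueField W) (AlgebraicClosure (ResidueField W))).comp μ).toAlgebra
  have hcomm : ∀ y : FT F' n, algebraMap (FT F' n) (AlgebraicClosure (ResidueField W)) y =
      algebraMap (ResidueField W) (AlgebraicClosure (ResidueField W)) (μ y) := fun y => rfl
  obtain ⟨e, he⟩ : ∃ e : Cl F' n →+* AlgebraicClosure (ResidueField W), ∀ y : FT F' n,
      e (algebraMap (FT F' n) (Cl F' n) y) =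
        algebraMap (ResidueField W) (AlgebraicClosure (ResidueField W)) (μ y) := by
    refine ⟨((IsAlgClosed.lift : Cl F' n →ₐ[FT F' n] AlgebraicClosure (ResidueField W)) :
      Cl F' n →+* AlgebraicClosure (ResidueField W)), fun y => ?_⟩
    rw [← hcomm]
    exact (IsAlgClosed.lift : Cl F' n →ₐ[FT F' n] AlgebraicClosure (ResidueField W)).commutes y
  have hρz : ∀ z : W, algebraMap (ResidueField W) (AlgebraicClosure (ResidueField W))
      (residue W z) ≠ 0 → IsUnit z := by
    intro z hz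
    rw [← residue_ne_zero_iff_isUnit]
    intro h0
    apply hz
    rw [h0, map_zero]
  have hρθ : ∀ g, algebraMap (ResidueField W) (AlgebraicClosure (ResidueField W))
      (residue W (θ g)) = e (algebraMap (FT F' n) (Cl F' n)
        (algebraMap (MvPolynomial (Fin (n + 2)) F') (FT F' n) (map π g))) := by
    intro g
    rw [he, hμ, hμ0]
  refine ⟨W, AlgebraicClosure (ResidueField W), inferInstance, e.toAlgebra,
    (algebraMap (ResidueField W) (AlgebraicClosure (ResidueField W))).comp (residue W),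
    fun z hz => hρz z hz, fun g => ⟨θ g, (hθc g).trans (hι0 g), hρθ g⟩, ?_⟩
  -- the last clause
  intro z y hzy
  by_cases hy : y = 0
  · refine ⟨0, ?_⟩
    have h1 : z = 0 := by
      apply Subtype.ext
      rw [hzy, hy, map_zero]
      rfl
    rw [h1, map_zero, map_zero, map_zero]
  obtain ⟨a, b, hb, hab⟩ := IsFractionRing.div_surjective (A := MvPolynomial (Fin (n + 2)) E) y
  have hb0 : b ≠ 0 := nonZeroDivisors.ne_zero hb
  have ha0 : a ≠ 0 := by
    rintro rfl
    apply hy
    rw [← hab, map_zero, zero_div]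
  obtain ⟨s, hs, g', hg', u1, d1, hd1⟩ := Pool.Agent.CUB.H64.prim (V := V) (fun _ : Unit => a)
    (fun h => ha0 (congrFun h ()))
  obtain ⟨t, ht, h', hh', u2, d2, hd2⟩ := Pool.Agent.CUB.H64.prim (V := V) (fun _ : Unit => b)
    (fun h => hb0 (congrFun h ()))
  have hred : ∀ (p : MvPolynomial (Fin (n + 2)) V) (m : Fin (n + 2) →₀ ℕ), coeff m p = 1 →
      map π p ≠ 0 := by
    intro p m hm h0
    have h1 := congrArg (coeff m) h0
    rw [coeff_map, hm, map_one, coeff_zero] at h1
    exact one_ne_zero h1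
  have hgu := hθu _ (hred _ _ hd1)
  have hhu := hθu _ (hred _ _ hd2)
  obtain ⟨j, hj⟩ : ∃ j : MvPolynomial (Fin (n + 2)) E →+* Cl E n, ∀ p, j p =
      algebraMap (FT E n) (Cl E n) (algebraMap (MvPolynomial (Fin (n + 2)) E) (FT E n) p) :=
    ⟨(algebraMap (FT E n) (Cl E n)).comp
      (algebraMap (MvPolynomial (Fin (n + 2)) E) (FT E n)), fun p => rfl⟩
  have hji : Function.Injective j := by
    intro p q hpq
    rw [hj, hj] at hpq
    exact IsFractionRing.injective (MvPolynomial (Fin (n + 2)) E) (FT E n)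
      ((algebraMap (FT E n) (Cl E n)).injective hpq)
  have hj0 : ∀ p, p ≠ 0 → j p ≠ 0 := fun p hp h0 => hp (hji (h0.trans (map_zero _).symm))
  have hιj : ∀ g, (θ g : Cl E n) = j (map V.subtype g) := by
    intro g
    rw [hθc, hι0, hj]
  have hzb : (z : Cl E n) * j b = j a := by
    rw [hzy, ← hab, map_div₀, hj, hj]
    refine div_mul_cancel₀ _ ?_
    rw [← hj]
    exact hj0 b hb0
  have hG : (θ (g' u1) : Cl E n) = j (C s) * j a := by
    rw [hιj, hg', map_mul]
  have hH : (θ (h' u2) : Cl E n) = j (C t) * j b := by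
    rw [hιj, hh', map_mul]
  have hsC : (C s : MvPolynomial (Fin (n + 2)) E) ≠ 0 := fun h => hs (C_eq_zero.1 h)
  have hc : j (C s) * j (C (t / s)) = j (C t) := by
    rw [← map_mul, ← C_mul, mul_div_cancel₀ _ hs]
  have hmain : j (C (t / s)) * (θ (g' u1) : Cl E n) = (z : Cl E n) * (θ (h' u2) : Cl E n) := by
    have h1 : j (C s) * (j (C (t / s)) * (θ (g' u1) : Cl E n)) =
        j (C s) * ((z : Cl E n) * (θ (h' u2) : Cl E n)) := by
      rw [hG, hH, ← hzb, ← hc]
      ring
    exact mul_left_cancel₀ (hj0 _ hsC) h1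
  obtain ⟨g1, hg1⟩ := hgu.exists_right_inv
  have hg1' : (θ (g' u1) : Cl E n) * (g1 : Cl E n) = 1 := congrArg Subtype.val hg1
  have hcV : t / s ∈ V := by
    by_contra hcV
    have h1 : (t / s)⁻¹ ∈ V := (V.mem_or_inv_mem (t / s)).resolve_left hcV
    have h2 : π ⟨_, h1⟩ = 0 := by
      by_contra h2
      obtain ⟨c2, hc2⟩ := (hloc _ h2).exists_right_inv
      apply hcV
      have h3 : (t / s)⁻¹ * (c2 : E) = 1 := congrArg Subtype.val hc2
      have h4 : t / s = (c2 : E) := by
        have h5 : (t / s)⁻¹ ≠ 0 := left_ne_zero_of_mul_eq_one h3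
        have h6 : (t / s)⁻¹ * (t / s) = 1 := inv_mul_cancel₀ (div_ne_zero ht hs)
        exact mul_left_cancel₀ h5 (h6.trans h3.symm)
      rw [h4]
      exact c2.2
    refine hθn (C ⟨_, h1⟩) (by rw [map_C, h2, C_0]) ?_
    refine IsUnit.of_mul_eq_one (z * θ (h' u2) * g1) ?_
    apply Subtype.ext
    have h7 : (θ (C ⟨_, h1⟩) : Cl E n) = j (C ((t / s)⁻¹)) := by
      rw [hιj, map_C]
      rfl
    have h8 : j (C ((t / s)⁻¹)) * j (C (t / s)) = 1 := by
      rw [← map_mul, ← C_mul, inv_mul_cancel₀ (div_ne_zero ht hs), C_1, map_one]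
    have h9 : (θ (C ⟨_, h1⟩) : Cl E n) * ((z : Cl E n) * (θ (h' u2) : Cl E n) * (g1 : Cl E n)) =
        1 := by
      rw [h7, ← hmain, mul_assoc, hg1', mul_one, h8]
    exact h9
  have hW2 : θ (C ⟨_, hcV⟩) * θ (g' u1) = z * θ (h' u2) := by
    apply Subtype.ext
    have h7 : (θ (C ⟨_, hcV⟩) : Cl E n) = j (C (t / s)) := by
      rw [hιj, map_C]
      rfl
    have h8 : (θ (C ⟨_, hcV⟩) : Cl E n) * (θ (g' u1) : Cl E n) =
        (z : Cl E n) * (θ (h' u2) : Cl E n) := by
      rw [h7, hmain]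
    exact h8
  refine ⟨algebraMap (MvPolynomial (Fin (n + 2)) F') (FT F' n)
    (map π (C ⟨_, hcV⟩ * g' u1)) /
      algebraMap (MvPolynomial (Fin (n + 2)) F') (FT F' n) (map π (h' u2)), ?_⟩
  have h1 := congrArg (fun w => algebraMap (ResidueField W) (AlgebraicClosure (ResidueField W))
    (residue W w)) hW2
  rw [← map_mul θ, map_mul (residue W) z, map_mul _ (residue W z), hρθ, hρθ] at h1
  have h2 : e (algebraMap (FT F' n) (Cl F' n)
      (algebraMap (MvPolynomial (Fin (n + 2)) F') (FT F' n) (map π (h' u2)))) ≠ 0 := by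
    rw [← hρθ]
    intro h0
    have h3 : residue W (θ (h' u2)) = 0 :=
      (map_eq_zero_iff _ (algebraMap (ResidueField W)
        (AlgebraicClosure (ResidueField W))).injective).1 h0
    exact (residue_ne_zero_iff_isUnit _).2 hhu h3
  change algebraMap (ResidueField W) (AlgebraicClosure (ResidueField W)) (residue W z) =
    e (algebraMap (FT F' n) (Cl F' n) _)
  rw [map_div₀, map_div₀, eq_div_iff h2]
  exact h1.symm

end Pool.Agent.SCT.H64
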